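import Mathlib

set_option autoImplicit false

namespace Pool.Agent.Results.MP_ca8ef0_co.Counter

open Finset

/-- The sign encoded by a Boolean coordinate: points of the cube are maps `Fin n → Bool`. -/
def sg (b : Bool) : ℝ := if b then 1 else -1

/-- The halfspace determined by `a0, a`. -/
def H {n : ℕ} (a0 : ℝ) (a : Fin n → ℝ) : Set (Fin n → Bool) :=
  {x | 0 ≤ a0 + ∑ i, a i * sg (x i)}

/-- `A` is `C`-bi-Lipschitz transitive for the Hamming distance. -/
def BiLipTrans {n : ℕ} (C : ℝ) (A : Set (Fin n → Bool)) : Prop :=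
  ∀ x y : A, ∃ f : A ≃ A, f x = y ∧ f y = x ∧ ∀ z w : A, z ≠ w →
    1 / C ≤ (hammingDist (f z).1 (f w).1 : ℝ) / (hammingDist z.1 w.1 : ℝ) ∧
    (hammingDist (f z).1 (f w).1 : ℝ) / (hammingDist z.1 w.1 : ℝ) ≤ C

/-- Weights: `1` on the first `m` coordinates, `m` on the others. -/
def wt (m n : ℕ) : Fin n → ℕ := fun i => if i.val < m then 1 else m

lemma mem_H (m n : ℕ) (x : Fin n → Bool) :
    x ∈ H (2 * m - ∑ i, (wt m n i : ℝ)) (fun i => (wt m n i : ℝ)) ↔
      ∑ i ∈ univ.filter (fun i => x i = false), wt m n i ≤ m := by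
  have e : ∑ i, (wt m n i : ℝ) * sg (x i) = ∑ i, (wt m n i : ℝ) -
      2 * ((∑ i ∈ univ.filter (fun i => x i = false), wt m n i : ℕ) : ℝ) := by
    rw [Nat.cast_sum, sum_filter, mul_sum, ← sum_sub_distrib]
    refine sum_congr rfl fun i _ => ?_
    cases x i <;> simp [sg]; ring
  simp only [H, Set.mem_ofPred_eq, e]
  rw [← Nat.cast_le (α := ℝ)]
  constructor <;> intro h <;> linarith

lemma card_lt (m n : ℕ) (h : m ≤ n) : (univ.filter (fun i : Fin n => i.val < m)).card = m := by
  rw [Fin.card_filter_val_lt]; omega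

theorem result : ¬ ∃ C : ℝ, 1 ≤ C ∧
    ∀ (n : ℕ) (a0 : ℝ) (a : Fin n → ℝ), BiLipTrans C (H a0 a) := by
  rintro ⟨C, hC, h⟩
  obtain ⟨m, hm, hm0⟩ : ∃ m : ℕ, C ≤ m ∧ 0 < m := ⟨⌈C⌉₊, Nat.le_ceil C, by
    rw [Nat.ceil_pos]; linarith⟩
  set n := m + (2 ^ m + 1) with hn
  have hmn : m ≤ n := Nat.le_add_right _ _
  set A := H (2 * m - ∑ i, (wt m n i : ℝ)) (fun i => (wt m n i : ℝ)) with hA
  have hx : (fun _ => true) ∈ A := by rw [mem_H]; simp
  have hy : (fun i : Fin n => decide (m ≤ i.val)) ∈ A := by
    rw [mem_H]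
    have : ∑ i ∈ univ.filter (fun i : Fin n => decide (m ≤ i.val) = false), wt m n i =
        ∑ i ∈ univ.filter (fun i : Fin n => i.val < m), 1 := by
      refine sum_congr (by ext i; simp) fun i hi => ?_
      simp only [mem_filter] at hi
      simp [wt, hi.2]
    rw [this, ← card_eq_sum_ones, card_lt m n hmn]
  have he : ∀ j : Fin (2 ^ m + 1), (fun i : Fin n => decide (i ≠ Fin.natAdd m j)) ∈ A := by
    intro j
    rw [mem_H]
    have : univ.filter (fun i : Fin n => decide (i ≠ Fin.natAdd m j) = false) =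
        {Fin.natAdd m j} := by ext i; simp
    rw [this, sum_singleton]
    simp [wt]
  obtain ⟨f, hf, -, hb⟩ := h n _ _ ⟨_, hx⟩ ⟨_, hy⟩
  have key : ∀ p : A, hammingDist p.1 (fun i : Fin n => decide (m ≤ i.val)) ≤ m →
      ∀ i : Fin n, m ≤ i.val → p.1 i = true := by
    intro p hp i hi
    by_contra hpi
    have hpi' : p.1 i = false := by simpa using hpi
    have h1 := (mem_H m n p.1).1 p.2
    have h2 : ∀ k : Fin n, k.val < m → p.1 k = true := by
      intro k hk
      by_contra hpk
      have hki : i ≠ k := by rintro rfl; omega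
      have h3 : ({i, k} : Finset (Fin n)) ⊆ univ.filter (fun i => p.1 i = false) := by
        intro u hu
        simp only [mem_insert, mem_singleton] at hu
        rcases hu with rfl | rfl
        · simpa using hpi'
        · simpa using hpk
      have h4 := sum_le_sum_of_subset (f := wt m n) h3
      rw [sum_pair hki] at h4
      simp only [wt, hk, if_true, if_neg (not_lt.2 hi)] at h4
      simp only [wt] at h1
      omega
    have h5 : insert i (univ.filter (fun k : Fin n => k.val < m)) ⊆
        univ.filter (fun k : Fin n => p.1 k ≠ decide (m ≤ k.val)) := by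
      intro u hu
      simp only [mem_insert, mem_filter, mem_univ, true_and] at hu ⊢
      rcases hu with rfl | hu
      · simp [hpi', hi]
      · simp [h2 u hu, hu]
    have h6 := card_le_card h5
    rw [card_insert_of_notMem (by simp; omega), card_lt m n hmn] at h6
    exact absurd (h6.trans hp) (by omega)
  have near : ∀ j, hammingDist (f ⟨_, he j⟩).1 (fun i : Fin n => decide (m ≤ i.val)) ≤ m := by
    intro j
    have hne : (⟨_, he j⟩ : A) ≠ ⟨_, hx⟩ := by
      intro h0
      have := congrFun (congrArg Subtype.val h0) (Fin.natAdd m j)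
      simp at this
    have h1 := (hb _ _ hne).2
    have h2 : hammingDist (fun i : Fin n => decide (i ≠ Fin.natAdd m j)) (fun _ => true) = 1 := by
      unfold hammingDist
      rw [card_eq_one]
      exact ⟨Fin.natAdd m j, by ext i; simp⟩
    rw [hf] at h1
    simp only [h2, Nat.cast_one, div_one] at h1
    exact_mod_cast h1.trans hm
  let g : Fin (2 ^ m + 1) → (Fin m → Bool) := fun j k => (f ⟨_, he j⟩).1 (Fin.castAdd _ k)
  have ginj : Function.Injective g := by
    intro j j' hjj
    have h1 : f ⟨_, he j⟩ = f ⟨_, he j'⟩ := by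
      apply Subtype.ext
      funext i
      by_cases hi : m ≤ i.val
      · rw [key _ (near j) i hi, key _ (near j') i hi]
      · exact congrFun hjj ⟨i.val, by omega⟩
    have h2 := congrFun (congrArg Subtype.val (f.injective h1)) (Fin.natAdd m j)
    have h3 : Fin.natAdd m j = Fin.natAdd m j' := by
      simp only [ne_eq, not_true_eq_false, decide_false] at h2
      by_contra h4
      rw [decide_eq_true h4] at h2
      exact Bool.false_ne_true h2
    exact Fin.ext (by have := congrArg Fin.val h3; simpa using this)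
  have := Fintype.card_le_of_injective g ginj
  simp at this

end Pool.Agent.Results.MP_ca8ef0_co.Counter
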